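import Pool.Agent.Q22.CycBlock2

/-! Transitive Sylow subgroups of finitary permutation groups without transitive subgroups having
the cyclic-block property. -/

namespace Pool.Agent.Results.MP_f6f917_al.NoCyclicBlocks

/-- For every prime `p` there are an infinite set `Ω`, a transitive group `G` of finitary
permutations of `Ω` and a transitive Sylow `p`-subgroup `S` of `G` such that every transitive
subgroup `H` of `S` contains a permutation `h` some cycle of which has a support
(`{y | h.SameCycle x y}`, the orbit of `x` under `⟨h⟩`) that is not a block for `H`. -/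
theorem result :
    ∀ (p : ℕ) [Fact p.Prime],
      ∃ (Ω : Type) (G : Subgroup (Equiv.Perm Ω)), Infinite Ω ∧
        (∀ g ∈ G, {x : Ω | g x ≠ x}.Finite) ∧
        (∀ x y : Ω, ∃ g ∈ G, g x = y) ∧
        ∃ S : Sylow p G,
          (∀ x y : Ω, ∃ s : G, s ∈ S ∧ (s : Equiv.Perm Ω) x = y) ∧
          ∀ H : Subgroup (Equiv.Perm Ω), H ≤ (S : Subgroup G).map G.subtype →
            (∀ x y : Ω, ∃ h ∈ H, h x = y) →
            ∃ h : Equiv.Perm Ω, h ∈ H ∧
              ∃ x : Ω, ¬ MulAction.IsBlock H {y : Ω | h.SameCycle x y} := by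
  intro p _
  obtain ⟨Ω, G, hinf, hfin, S, hS, hH⟩ := Q22.CycBlock.main p
  refine ⟨Ω, G, hinf, hfin, fun x y => ?_, S, hS, hH⟩
  obtain ⟨s, _, hs⟩ := hS x y
  exact ⟨s, s.2, hs⟩

end Pool.Agent.Results.MP_f6f917_al.NoCyclicBlocks
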